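import Pool.Agent.P4E.FnA

/-!
Direct evaluation of relations.
-/

namespace Pool.Agent.P4E

open Finset
open Pool.Agent.LibH4 Pool.Agent.LibH4.Ker Pool.Agent.LibH4.T6 Pool.Agent.LibH4.KF
open Pool.Agent.Lib_helper5 Pool.Agent.Lib_helper5.LK Pool.Agent.Lib_helper5.K4

/-- direct evaluation -/
def dr_d1 (x1 _x2 x3 xl : ℕ × ℕ × ℕ) (k : ℕ → Bool) : Bool :=
  ggl (nat_lit 13) T1_d1 (nat_lit 640) ds13 fun G =>
  withP4 (nat_lit 13) x1.1 x1.2.1 x1.2.2 fun B _ nm nr R d =>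
  withP4 (nat_lit 13) xl.1 xl.2.1 xl.2.2 fun Bl _ _ _ _ _ =>
  rowA (nat_lit 13) T1_d1 (nat_lit 640) G W_d1 Y1_d1 Y0_d1 (nat_lit 1) (nat_lit 13) d
    (FK4 (nat_lit 13) (nat_lit 13) xl.1 xl.2.1 Bl B nm nr R) (nat_lit 0) fun A => strict A fun A1 =>
  withP4 (nat_lit 7) x3.1 x3.2.1 x3.2.2 fun B3 m3 nm3 nr3 R3 _ =>
  strict (vecB (nat_lit 7) T3_d1 (nat_lit 1208925819614629174706176) (nat_lit 640) L7
    (forms4 (nat_lit 7) B3 m3 nm3 nr3 R3)) fun v =>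
  k (ip (nat_lit 2197) (nat_lit 1840) A1 v)

lemma dr_d1_spec {Q : ℕ} {a b t : ℤ} (S : SysE Q a b t) (hQ : 91 ∣ Q) {k : ℕ → Bool}
    {x2 : ℕ × ℕ × ℕ} (h : dr_d1 (cl 13 a b t) x2 (cl 7 a b t) (cl 13 a b t) k = true) : k 0 = true := by
  unfold dr_d1 cl at h
  simp only [ggl_eq] at h
  rw [withP4_eq, withP4_eq, FK4_eq] at h
  obtain ⟨h, C⟩ := rowA_use (by norm_num) (by norm_num) h
  rw [withP4_eq, forms4_eq (by norm_num), vecB_use, strict_eq, zB_d1 S hQ C] at h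
  exact h

/-- direct evaluation -/
def dr_d5 (x1 x2 x3 xl : ℕ × ℕ × ℕ) (k : ℕ → Bool) : Bool :=
  ggl (nat_lit 7) T1_d5 (nat_lit 13440) ds7 fun G =>
  withP4 (nat_lit 7) x1.1 x1.2.1 x1.2.2 fun B _ nm nr R d =>
  withP4 (nat_lit 7) xl.1 xl.2.1 xl.2.2 fun Bl _ _ _ _ _ =>
  rowA (nat_lit 7) T1_d5 (nat_lit 13440) G W_d5 Y1_d5 Y0_d5 (nat_lit 1) (nat_lit 7) d
    (FK4 (nat_lit 7) (nat_lit 7) xl.1 xl.2.1 Bl B nm nr R) (nat_lit 0) fun A => strict A fun A1 =>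
  withP4 (nat_lit 8) x2.1 x2.2.1 x2.2.2 fun B2 m2 nm2 nr2 R2 _ =>
  strict (red (nat_lit 13440) (nat_lit 1120) (nat_lit 12320) (nat_lit 3) A1
    (vecA (nat_lit 8) T2_d5 (Nat.pow (nat_lit 2) (nat_lit 1120)) (nat_lit 13440) L8
      (forms4 (nat_lit 8) B2 m2 nm2 nr2 R2) (nat_lit 0))) fun A2 =>
  withP4 (nat_lit 13) x3.1 x3.2.1 x3.2.2 fun B3 m3 nm3 nr3 R3 _ =>
  strict (vecB (nat_lit 13) T3_d5 (nat_lit 1208925819614629174706176) (nat_lit 1120) L13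
    (forms4 (nat_lit 13) B3 m3 nm3 nr3 R3)) fun v =>
  k (ip (nat_lit 343) (nat_lit 3280) A2 v)

lemma dr_d5_spec {Q : ℕ} {a b t : ℤ} (S : SysE Q a b t) (hQ : 182 ∣ Q) {k : ℕ → Bool}
    (h : dr_d5 (cl 7 a b t) (cl 8 a b t) (cl 13 a b t) (cl 7 a b t) k = true) : k 0 = true := by
  unfold dr_d5 cl at h
  simp only [ggl_eq] at h
  rw [withP4_eq, withP4_eq, FK4_eq] at h
  obtain ⟨h, C⟩ := rowA_use (by norm_num) (by norm_num) h
  rw [withP4_eq, forms4_eq (by norm_num), vecA_use, strict_eq] at h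
  rw [withP4_eq, forms4_eq (by norm_num), vecB_use, strict_eq, zB_d5 S hQ C] at h
  exact h

/-- direct evaluation -/
def dr_h1 (x1 x2 x3 xl : ℕ × ℕ × ℕ) (k : ℕ → Bool) : Bool :=
  ggl (nat_lit 7) T1_h1 (nat_lit 5760) ds7 fun G =>
  withP4 (nat_lit 7) x1.1 x1.2.1 x1.2.2 fun B _ nm nr R d =>
  withP4 (nat_lit 7) xl.1 xl.2.1 xl.2.2 fun Bl _ _ _ _ _ =>
  rowA (nat_lit 7) T1_h1 (nat_lit 5760) G W_h1 Y1_h1 Y0_h1 (nat_lit 1) (nat_lit 7) d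
    (FK4 (nat_lit 7) (nat_lit 7) xl.1 xl.2.1 Bl B nm nr R) (nat_lit 0) fun A => strict A fun A1 =>
  withP4 (nat_lit 8) x2.1 x2.2.1 x2.2.2 fun B2 m2 nm2 nr2 R2 _ =>
  strict (red (nat_lit 5760) (nat_lit 480) (nat_lit 5280) (nat_lit 3) A1
    (vecA (nat_lit 8) T2_h1 (Nat.pow (nat_lit 2) (nat_lit 480)) (nat_lit 5760) L8
      (forms4 (nat_lit 8) B2 m2 nm2 nr2 R2) (nat_lit 0))) fun A2 =>
  withP4 (nat_lit 5) x3.1 x3.2.1 x3.2.2 fun B3 m3 nm3 nr3 R3 _ =>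
  strict (vecB (nat_lit 5) T3_h1 (nat_lit 1208925819614629174706176) (nat_lit 480) L5
    (forms4 (nat_lit 5) B3 m3 nm3 nr3 R3)) fun v =>
  k (ip (nat_lit 343) (nat_lit 1360) A2 v)

lemma dr_h1_spec {Q : ℕ} {a b t : ℤ} (S : SysE Q a b t) (hQ : 70 ∣ Q) {k : ℕ → Bool}
    (h : dr_h1 (cl 7 a b t) (cl 8 a b t) (cl 5 a b t) (cl 7 a b t) k = true) : k 0 = true := by
  unfold dr_h1 cl at h
  simp only [ggl_eq] at h
  rw [withP4_eq, withP4_eq, FK4_eq] at h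
  obtain ⟨h, C⟩ := rowA_use (by norm_num) (by norm_num) h
  rw [withP4_eq, forms4_eq (by norm_num), vecA_use, strict_eq] at h
  rw [withP4_eq, forms4_eq (by norm_num), vecB_use, strict_eq, zB_h1 S hQ C] at h
  exact h

/-- the filter -/
def flt (L : List ℕ) : Bool :=
  allL (fun c => cls (nat_lit 8) (nat_lit 1) c fun a8 b8 t8 =>
    cls (nat_lit 13) (nat_lit 438976000) c fun a13 b13 t13 => cls (nat_lit 7) (nat_lit 964430272000) c fun a7 b7 t7 =>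
    dr_d5 (a7, b7, t7) (a8, b8, t8) (a13, b13, t13) (a7, b7, t7) fun v => cond0 v false) L

theorem flt_spec {Q : ℕ} {a b t : ℤ} (S : SysE Q a b t) (hQ : 17290 ∣ Q) {L : List ℕ}
    (hc : c69160 a b t ∈ L) (h : flt L = true) : False := by
  have h := allL_spec h _ hc
  rw [cls_eq (c69160_8 a b t), cls_eq (c69160_13 a b t), cls_eq (c69160_7 a b t)] at h
  have h := dr_d5_spec S (Dvd.dvd.trans (by norm_num) hQ) h
  have h := cond0_zero rfl h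
  exact absurd h (by simp)

end Pool.Agent.P4E
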