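import Pool.Agent.P4E.Dr

/-!
The families with small `r`: `a` and `a t - b = s` are fixed.
-/

namespace Pool.Agent.P4E

open Finset
open Pool.Agent.LibH4 Pool.Agent.LibH4.Ker Pool.Agent.LibH4.T6 Pool.Agent.LibH4.KF
open Pool.Agent.Lib_helper5 Pool.Agent.Lib_helper5.LK Pool.Agent.Lib_helper5.K4

/-- the class of the parameters `a`, `a t - s`, `t` -/
def fc (p a s t : ℕ) : ℕ × ℕ × ℕ :=
  (Nat.mod a p, Nat.mod (Nat.add (Nat.mul a t) (Nat.sub p (Nat.mod s p))) p, Nat.mod t p)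

lemma fc_b {p : ℕ} [NeZero p] (a s t : ℕ) (t' : ℤ) (h : (t : ZMod p) = (t' : ZMod p)) :
    Nat.mod (Nat.add (Nat.mul a t) (Nat.sub p (Nat.mod s p))) p = rs p ((a : ℤ) * t' - s) := by
  change (a * t + (p - s % p)) % p = _
  have hp : 0 < p := Nat.pos_of_ne_zero (NeZero.ne p)
  apply rs_of
  rw [Nat.cast_add, Nat.cast_mul, Nat.cast_sub (Nat.mod_lt _ hp).le, ZMod.natCast_mod, h]
  push_cast
  rw [ZMod.natCast_self]
  ring

lemma fc_eq {p : ℕ} [NeZero p] (a s t : ℕ) (t' : ℤ) (h : (t : ZMod p) = (t' : ZMod p)) :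
    fc p a s t = cl p (a : ℤ) ((a : ℤ) * t' - s) t' := by
  unfold fc cl
  rw [fc_b a s t t' h]
  have e1 : Nat.mod a p = rs p (a : ℤ) := rs_of (by push_cast; rfl)
  have e2 : Nat.mod t p = rs p t' := rs_of h
  rw [e1, e2]

/-- the class belongs to the family -/
def isF (p a s : ℕ) (x : ℕ × ℕ × ℕ) : Bool :=
  andB (Nat.beq x.1 (Nat.mod a p))
    (Nat.beq x.2.1 (Nat.mod (Nat.add (Nat.mul a x.2.2) (Nat.sub p (Nat.mod s p))) p))

/-- the opposite class belongs to the family -/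
def isN (p a s : ℕ) (x : ℕ × ℕ × ℕ) : Bool :=
  andB (Nat.beq x.1 (Nat.mod (Nat.sub p (Nat.mod a p)) p))
    (Nat.beq x.2.1 (Nat.mod (Nat.sub p
      (Nat.mod (Nat.add (Nat.mul a x.2.2) (Nat.sub p (Nat.mod s p))) p)) p))

lemma rs_nat {p : ℕ} [NeZero p] (t : ℤ) : ((rs p t : ℕ) : ZMod p) = (t : ZMod p) := rs_cast t

lemma rs_opp {p : ℕ} [NeZero p] (x : ℤ) : Nat.mod (Nat.sub p (rs p x)) p = rs p (-x) := by
  change (p - rs p x) % p = _
  apply rs_of
  rw [Nat.cast_sub (rs_lt x).le, rs_cast]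
  push_cast
  simp

lemma isF_spec {p : ℕ} [NeZero p] (a s : ℕ) (t : ℤ) :
    isF p a s (cl p (a : ℤ) ((a : ℤ) * t - s) t) = true := by
  unfold isF cl
  have e1 : Nat.mod a p = rs p (a : ℤ) := rs_of (by push_cast; rfl)
  have e2 := fc_b (p := p) a s (rs p t) t (rs_cast t)
  simp only
  rw [e1, e2, Nat.beq_refl, Nat.beq_refl]
  rfl

lemma isN_spec {p : ℕ} [NeZero p] (a s : ℕ) (t : ℤ) :
    isN p a s (cl p (-(a : ℤ)) (-((a : ℤ) * t - s)) t) = true := by
  unfold isN cl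
  have e1 : Nat.mod a p = rs p (a : ℤ) := rs_of (by push_cast; rfl)
  have e2 := fc_b (p := p) a s (rs p t) t (rs_cast t)
  simp only
  rw [e1, e2, rs_opp, rs_opp, Nat.beq_refl, Nat.beq_refl]
  rfl

/-- inertness of a class -/
def inT (p e : ℕ) (x : ℕ × ℕ × ℕ) : Bool :=
  withP4 p x.1 x.2.1 x.2.2 fun _ _ _ _ _ d => Nat.beq (Nat.mod (Nat.pow d e) p)
    (Nat.sub p (nat_lit 1))

lemma inT_spec {Q : ℕ} {a b t : ℤ} (S : SysE Q a b t) {p : ℕ} [NeZero p] (hp : p.Prime)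
    (hp2 : p ≠ 2) (hd : p ∣ Q) : inT p (p / 2) (cl p a b t) = true := by
  unfold inT cl
  rw [withP4_eq]
  exact S.inr p hp hp2 hd

/-- implication -/
def impB (a b : Bool) : Bool := @Bool.rec (fun _ => Bool) true b a

lemma impB_spec {a b : Bool} (h : impB a b = true) (ha : a = true) : b = true := by
  subst ha; exact h

/-- classes modulo 760 in a family -/
def fam760 (a s : ℕ) (k : ℕ → ℕ → ℕ → Bool) (L : List ℕ) : Bool :=
  allL (fun c => cls (nat_lit 8) (nat_lit 1) c fun a8 b8 t8 =>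
    cls (nat_lit 19) (nat_lit 512) c fun a19 b19 t19 =>
    cls (nat_lit 5) (nat_lit 3511808) c fun a5 b5 t5 =>
    andB (impB (andB (isF (nat_lit 8) a s (a8, b8, t8)) (andB (isF (nat_lit 19) a s (a19, b19, t19))
        (isF (nat_lit 5) a s (a5, b5, t5)))) (k t8 t19 t5))
      (impB (andB (isN (nat_lit 8) a s (a8, b8, t8)) (andB (isN (nat_lit 19) a s (a19, b19, t19))
        (isN (nat_lit 5) a s (a5, b5, t5)))) (k t8 t19 t5))) L

lemma fam760_specF {a s : ℕ} {t : ℤ} {k : ℕ → ℕ → ℕ → Bool} {L : List ℕ}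
    (h : fam760 a s k L = true)
    (hc : c760 (a : ℤ) ((a : ℤ) * t - s) t ∈ L) : k (rs 8 t) (rs 19 t) (rs 5 t) = true := by
  have h := allL_spec h _ hc
  rw [cls_eq (c760_8 _ _ _), cls_eq (c760_19 _ _ _), cls_eq (c760_5 _ _ _)] at h
  obtain ⟨h, -⟩ := andB_spec h
  refine impB_spec h ?_
  have e8 := isF_spec (p := 8) a s t
  have e19 := isF_spec (p := 19) a s t
  have e5 := isF_spec (p := 5) a s t
  unfold cl at e8 e19 e5
  rw [e8, e19, e5]
  rfl

lemma fam760_specN {a s : ℕ} {t : ℤ} {k : ℕ → ℕ → ℕ → Bool} {L : List ℕ}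
    (h : fam760 a s k L = true)
    (hc : c760 (-(a : ℤ)) (-((a : ℤ) * t - s)) t ∈ L) : k (rs 8 t) (rs 19 t) (rs 5 t) = true := by
  have h := allL_spec h _ hc
  rw [cls_eq (c760_8 _ _ _), cls_eq (c760_19 _ _ _), cls_eq (c760_5 _ _ _)] at h
  obtain ⟨-, h⟩ := andB_spec h
  refine impB_spec h ?_
  have e8 := isN_spec (p := 8) a s t
  have e19 := isN_spec (p := 19) a s t
  have e5 := isN_spec (p := 5) a s t
  unfold cl at e8 e19 e5
  rw [e8, e19, e5]
  rfl

lemma f760_7 : fam760 (nat_lit 6) (nat_lit 1) (fun _ _ _ => false) S760 = true := by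
  decide +kernel

/-- the families with `r = 19` -/
def famA (a s : ℕ) : Bool :=
  allR (fun t => impB (Nat.beq (Nat.mod t (nat_lit 2)) (nat_lit 0))
    (impB (inT (nat_lit 5) (nat_lit 2) (fc (nat_lit 5) a s t))
    (impB (inT (nat_lit 7) (nat_lit 3) (fc (nat_lit 7) a s t))
    (dr_h1 (fc (nat_lit 7) a s t) (fc (nat_lit 8) a s t) (fc (nat_lit 5) a s t)
      (fc (nat_lit 7) a s t) fun v => cond0 v (
    allR (fun u => impB (inT (nat_lit 13) (nat_lit 6) (fc (nat_lit 13) a s u))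
      (dr_d1 (fc (nat_lit 13) a s u) (fc (nat_lit 13) a s u) (fc (nat_lit 7) a s t)
        (fc (nat_lit 13) a s u) fun v => cond0 v (
      dr_d5 (fc (nat_lit 7) a s t) (fc (nat_lit 8) a s t) (fc (nat_lit 13) a s u)
        (fc (nat_lit 7) a s t) fun v => cond0 v false))) (nat_lit 13)))))) (nat_lit 280)

lemma famA_spec {Q : ℕ} {a s : ℕ} {t : ℤ} (S : SysE Q (a : ℤ) ((a : ℤ) * t - s) t)
    (hQ : 910 ∣ Q) (h : famA a s = true) : False := by
  have h280 : ((rs 280 t : ℕ) : ℤ) = t % 280 := ZMod.val_intCast t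
  have hz : ∀ p : ℕ, p ∣ 280 → ((rs 280 t : ℕ) : ZMod p) = (t : ZMod p) := by
    intro p hp
    have h1 : ((rs 280 t : ℕ) : ℤ) ≡ t [ZMOD (p : ℤ)] := by
      rw [h280]
      exact (Int.mod_modEq t 280).of_dvd (by exact_mod_cast hp)
    have := (ZMod.intCast_eq_intCast_iff _ _ p).2 h1
    exact_mod_cast this
  have h := allR_spec h (rs 280 t) (rs_lt t)
  have ot : Nat.beq (Nat.mod (rs 280 t) (nat_lit 2)) (nat_lit 0) = true := by
    have h1 := S.ot
    have h2 : rs 280 t % 2 = 0 := by omega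
    change Nat.beq (rs 280 t % 2) 0 = true
    rw [h2]
    rfl
  have h := impB_spec h ot
  rw [fc_eq a s _ t (hz 5 (by norm_num)), fc_eq a s _ t (hz 7 (by norm_num)),
    fc_eq a s _ t (hz 8 (by norm_num))] at h
  have h := impB_spec h (inT_spec (p := 5) S (by norm_num) (by norm_num)
    (Dvd.dvd.trans (by norm_num) hQ))
  have h := impB_spec h (inT_spec (p := 7) S (by norm_num) (by norm_num)
    (Dvd.dvd.trans (by norm_num) hQ))
  have h := dr_h1_spec S (Dvd.dvd.trans (by norm_num) hQ) h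
  have h := cond0_zero rfl h
  have h := allR_spec h (rs 13 t) (rs_lt t)
  rw [fc_eq a s _ t (rs_cast t)] at h
  have h := impB_spec h (inT_spec (p := 13) S (by norm_num) (by norm_num)
    (Dvd.dvd.trans (by norm_num) hQ))
  have h := dr_d1_spec S (Dvd.dvd.trans (by norm_num) hQ) h
  have h := cond0_zero rfl h
  have h := dr_d5_spec S (Dvd.dvd.trans (by norm_num) hQ) h
  have h := cond0_zero rfl h
  exact absurd h (by simp)

lemma fA_6 : famA (nat_lit 6) (nat_lit 3) = true := by decide +kernel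

lemma fA_18 : famA (nat_lit 18) (nat_lit 1) = true := by decide +kernel

end Pool.Agent.P4E
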