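import Pool.Agent.P4E.FnA

/-! generated: kernel checks -/

namespace Pool.Agent.P4E

open Finset
open Pool.Agent.LibH4 Pool.Agent.LibH4.Ker Pool.Agent.LibH4.T6 Pool.Agent.LibH4.KF
open Pool.Agent.Lib_helper5 Pool.Agent.Lib_helper5.LK Pool.Agent.Lib_helper5.K4

lemma stA_4 : stA (nat_lit 4) (nat_lit 0) (nat_lit 19) = true := by decide +kernel

lemma stA_5 : stA (nat_lit 5) (nat_lit 0) (nat_lit 19) = true := by decide +kernel

lemma stA_6 : stA (nat_lit 6) (nat_lit 0) (nat_lit 19) = true := by decide +kernel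

lemma stA_7 : stA (nat_lit 7) (nat_lit 0) (nat_lit 19) = true := by decide +kernel

end Pool.Agent.P4E
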