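import Pool.Agent.P4E.FnB

/-! generated: kernel checks -/

namespace Pool.Agent.P4E

open Finset
open Pool.Agent.LibH4 Pool.Agent.LibH4.Ker Pool.Agent.LibH4.T6 Pool.Agent.LibH4.KF
open Pool.Agent.Lib_helper5 Pool.Agent.Lib_helper5.LK Pool.Agent.Lib_helper5.K4

lemma stB_0 : stB (nat_lit 2, nat_lit 1, nat_lit 0) = true := by decide +kernel

lemma stB_1 : stB (nat_lit 2, nat_lit 1, nat_lit 2) = true := by decide +kernel

lemma stB_2 : stB (nat_lit 2, nat_lit 1, nat_lit 4) = true := by decide +kernel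

lemma stB_3 : stB (nat_lit 2, nat_lit 1, nat_lit 6) = true := by decide +kernel

end Pool.Agent.P4E
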