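import Pool.Agent.P4E.Fam
import Pool.Agent.P4E.KA0
import Pool.Agent.P4E.KA1
import Pool.Agent.P4E.KA2
import Pool.Agent.P4E.KA3
import Pool.Agent.P4E.KA4
import Pool.Agent.P4E.KB0
import Pool.Agent.P4E.KB1
import Pool.Agent.P4E.KB2
import Pool.Agent.P4E.KB3
import Pool.Agent.P4E.KC0
import Pool.Agent.P4E.KC1
import Pool.Agent.P4E.KC2
import Pool.Agent.P4E.KC3
import Pool.Agent.P4E.KC4
import Pool.Agent.P4E.KC5
import Pool.Agent.P4E.KC6
import Pool.Agent.P4E.KD0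
import Pool.Agent.P4E.KD1
import Pool.Agent.P4E.KD2
import Pool.Agent.P4E.KD3
import Pool.Agent.P4E.KD4
import Pool.Agent.P4E.KD5
import Pool.Agent.P4E.KD6
import Pool.Agent.P4E.KF

/-!
The elimination for period four, first partial quotient congruent to two modulo four.
-/

namespace Pool.Agent.P4E

open Finset
open Pool.Agent.LibH4 Pool.Agent.LibH4.Ker Pool.Agent.LibH4.T6 Pool.Agent.LibH4.KF
open Pool.Agent.Lib_helper5 Pool.Agent.Lib_helper5.LK Pool.Agent.Lib_helper5.K4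

/-- membership of a triple -/
def memT (c : ℕ × ℕ × ℕ) (L : List (ℕ × ℕ × ℕ)) : Bool :=
  @List.rec (ℕ × ℕ × ℕ) (fun _ => Bool) false (fun x _ ih =>
    @Bool.rec (fun _ => Bool) ih true (andB (andB (Nat.beq x.1 c.1) (Nat.beq x.2.1 c.2.1))
      (Nat.beq x.2.2 c.2.2))) L

lemma memT_spec {c : ℕ × ℕ × ℕ} {L : List (ℕ × ℕ × ℕ)} (h : memT c L = true) : c ∈ L := by
  induction L with
  | nil => exact absurd h (by simp [memT])
  | cons x L ih =>
    have h' : @Bool.rec (fun _ => Bool) (memT c L) true (andB (andB (Nat.beq x.1 c.1)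
      (Nat.beq x.2.1 c.2.1)) (Nat.beq x.2.2 c.2.2)) = true := h
    cases hb : (andB (andB (Nat.beq x.1 c.1) (Nat.beq x.2.1 c.2.1)) (Nat.beq x.2.2 c.2.2)) with
    | false => rw [hb] at h'; simp [ih h']
    | true =>
      obtain ⟨h1, h2⟩ := andB_spec hb
      obtain ⟨h3, h4⟩ := andB_spec h1
      have e1 := Nat.eq_of_beq_eq_true h2
      have e2 := Nat.eq_of_beq_eq_true h3
      have e3 := Nat.eq_of_beq_eq_true h4
      have : c = x := Prod.ext e2.symm (Prod.ext e3.symm e1.symm)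
      simp [this]

/-- all classes modulo 8 are in the list up to sign -/
def ckD8 : Bool :=
  allR (fun a => allR (fun b => allR (fun t =>
    impB (andB (Nat.beq (Nat.mod a (nat_lit 4)) (nat_lit 2)) (andB (Nat.beq (Nat.mod b (nat_lit 2))
      (nat_lit 1)) (Nat.beq (Nat.mod t (nat_lit 2)) (nat_lit 0))))
      (@Bool.rec (fun _ => Bool) (memT (Nat.mod (Nat.sub (nat_lit 8) a) (nat_lit 8),
        Nat.mod (Nat.sub (nat_lit 8) b) (nat_lit 8), t) D8) true (memT (a, b, t) D8)))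
      (nat_lit 8)) (nat_lit 8)) (nat_lit 8)

lemma ckD8_true : ckD8 = true := by decide +kernel

lemma mem_D8 {Q : ℕ} {a b t : ℤ} (S : SysE Q a b t) :
    cl 8 a b t ∈ D8 ∨ cl 8 (-a) (-b) t ∈ D8 := by
  have h := allR_spec (allR_spec (allR_spec ckD8_true (rs 8 a) (rs_lt a)) (rs 8 b) (rs_lt b))
    (rs 8 t) (rs_lt t)
  have i8 : ∀ x : ℤ, ((rs 8 x : ℕ) : ℤ) = x % 8 := fun x => ZMod.val_intCast x
  have ha : rs 8 a % 4 = 2 := by
    have := i8 a
    have := S.oa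
    omega
  have hb : rs 8 b % 2 = 1 := by
    have := i8 b
    have := S.ob
    omega
  have ht : rs 8 t % 2 = 0 := by
    have := i8 t
    have := S.ot
    omega
  have ho : andB (Nat.beq (Nat.mod (rs 8 a) (nat_lit 4)) (nat_lit 2))
      (andB (Nat.beq (Nat.mod (rs 8 b) (nat_lit 2)) (nat_lit 1))
        (Nat.beq (Nat.mod (rs 8 t) (nat_lit 2)) (nat_lit 0))) = true := by
    change andB (Nat.beq (rs 8 a % 4) 2) (andB (Nat.beq (rs 8 b % 2) 1)
      (Nat.beq (rs 8 t % 2) 0)) = true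
    rw [ha, hb, ht]
    rfl
  have h := impB_spec h ho
  rw [rs_opp, rs_opp] at h
  cases hb : memT (rs 8 a, rs 8 b, rs 8 t) D8 with
  | false => rw [hb] at h; exact Or.inr (memT_spec h)
  | true => exact Or.inl (memT_spec hb)

lemma stB_all : ∀ x ∈ D8, stB x = true :=
  List.forall_mem_cons.2 ⟨stB_0,
  List.forall_mem_cons.2 ⟨stB_1,
  List.forall_mem_cons.2 ⟨stB_2,
  List.forall_mem_cons.2 ⟨stB_3,
  List.forall_mem_cons.2 ⟨stB_4,
  List.forall_mem_cons.2 ⟨stB_5,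
  List.forall_mem_cons.2 ⟨stB_6,
  List.forall_mem_cons.2 ⟨stB_7,
  List.forall_mem_cons.2 ⟨stB_8,
  List.forall_mem_cons.2 ⟨stB_9,
  List.forall_mem_cons.2 ⟨stB_10,
  List.forall_mem_cons.2 ⟨stB_11,
  List.forall_mem_cons.2 ⟨stB_12,
  List.forall_mem_cons.2 ⟨stB_13,
  List.forall_mem_cons.2 ⟨stB_14,
  List.forall_mem_cons.2 ⟨stB_15,
  (List.forall_mem_nil _)⟩⟩⟩⟩⟩⟩⟩⟩⟩⟩⟩⟩⟩⟩⟩⟩

/-- stage A -/
lemma stageA {Q : ℕ} {a b t : ℤ} (S : SysE Q a b t) (hQ : 38 ∣ Q) (h8 : cl 8 a b t ∈ D8) :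
    c152 a b t ∈ S152 := by
  have ha : rs 19 a < 19 := rs_lt a
  have hb : rs 19 b < 0 + 19 := by rw [zero_add]; exact rs_lt b
  have key : ∀ x : ℕ, stA x 0 19 = true → rs 19 a = x → c152 a b t ∈ S152 := by
    intro x hx e
    rw [← e] at hx
    exact stA_spec S hQ h8 hx (Nat.zero_le _) hb
  generalize e : rs 19 a = x at ha
  interval_cases x
  · exact key 0 stA_0 e
  · exact key 1 stA_1 e
  · exact key 2 stA_2 e
  · exact key 3 stA_3 e
  · exact key 4 stA_4 e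
  · exact key 5 stA_5 e
  · exact key 6 stA_6 e
  · exact key 7 stA_7 e
  · exact key 8 stA_8 e
  · exact key 9 stA_9 e
  · exact key 10 stA_10 e
  · exact key 11 stA_11 e
  · exact key 12 stA_12 e
  · exact key 13 stA_13 e
  · exact key 14 stA_14 e
  · exact key 15 stA_15 e
  · exact key 16 stA_16 e
  · exact key 17 stA_17 e
  · exact key 18 stA_18 e

/-- stage B -/
lemma stageB {Q : ℕ} {a b t : ℤ} (S : SysE Q a b t) (hQ : 190 ∣ Q) (h8 : cl 8 a b t ∈ D8) :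
    c760 a b t ∈ S760 :=
  stB_spec S hQ (stageA S (Dvd.dvd.trans (by norm_num) hQ) h8) (stB_all _ h8)

/-- stage C -/
lemma stageC {Q : ℕ} {a b t : ℤ} (S : SysE Q a b t) (hQ : 2470 ∣ Q)
    (hc : c760 a b t ∈ S760) : c9880 a b t ∈ S9880 := by
  have ha : rs 13 a < 13 := rs_lt a
  rcases Nat.lt_or_ge (rs 13 a) 1 with h0 | h0
  · exact stC_spec (lo := 0) (n := 1) S hQ hc stC_0 (by omega) (by omega)
  rcases Nat.lt_or_ge (rs 13 a) 2 with h1 | h1
  · exact stC_spec (lo := 1) (n := 1) S hQ hc stC_1 (by omega) (by omega)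
  rcases Nat.lt_or_ge (rs 13 a) 3 with h2 | h2
  · exact stC_spec (lo := 2) (n := 1) S hQ hc stC_2 (by omega) (by omega)
  rcases Nat.lt_or_ge (rs 13 a) 4 with h3 | h3
  · exact stC_spec (lo := 3) (n := 1) S hQ hc stC_3 (by omega) (by omega)
  rcases Nat.lt_or_ge (rs 13 a) 5 with h4 | h4
  · exact stC_spec (lo := 4) (n := 1) S hQ hc stC_4 (by omega) (by omega)
  rcases Nat.lt_or_ge (rs 13 a) 6 with h5 | h5
  · exact stC_spec (lo := 5) (n := 1) S hQ hc stC_5 (by omega) (by omega)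
  rcases Nat.lt_or_ge (rs 13 a) 7 with h6 | h6
  · exact stC_spec (lo := 6) (n := 1) S hQ hc stC_6 (by omega) (by omega)
  rcases Nat.lt_or_ge (rs 13 a) 8 with h7 | h7
  · exact stC_spec (lo := 7) (n := 1) S hQ hc stC_7 (by omega) (by omega)
  rcases Nat.lt_or_ge (rs 13 a) 9 with h8 | h8
  · exact stC_spec (lo := 8) (n := 1) S hQ hc stC_8 (by omega) (by omega)
  rcases Nat.lt_or_ge (rs 13 a) 10 with h9 | h9
  · exact stC_spec (lo := 9) (n := 1) S hQ hc stC_9 (by omega) (by omega)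
  rcases Nat.lt_or_ge (rs 13 a) 11 with h10 | h10
  · exact stC_spec (lo := 10) (n := 1) S hQ hc stC_10 (by omega) (by omega)
  rcases Nat.lt_or_ge (rs 13 a) 12 with h11 | h11
  · exact stC_spec (lo := 11) (n := 1) S hQ hc stC_11 (by omega) (by omega)
  exact stC_spec (lo := 12) (n := 1) S hQ hc stC_12 (by omega) (by omega)

/-- stage D -/
lemma stageD {Q : ℕ} {a b t : ℤ} (S : SysE Q a b t) (hQ : 17290 ∣ Q)
    (hc : c9880 a b t ∈ S9880) : okD (c69160 a b t) = true := by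
  have ha : rs 7 a < 7 := rs_lt a
  rcases Nat.lt_or_ge (rs 7 a) 1 with h0 | h0
  · exact stD_spec (lo := 0) (n := 1) S hQ hc stD_0 (by omega) (by omega)
  rcases Nat.lt_or_ge (rs 7 a) 2 with h1 | h1
  · exact stD_spec (lo := 1) (n := 1) S hQ hc stD_1 (by omega) (by omega)
  rcases Nat.lt_or_ge (rs 7 a) 3 with h2 | h2
  · exact stD_spec (lo := 2) (n := 1) S hQ hc stD_2 (by omega) (by omega)
  rcases Nat.lt_or_ge (rs 7 a) 4 with h3 | h3
  · exact stD_spec (lo := 3) (n := 1) S hQ hc stD_3 (by omega) (by omega)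
  rcases Nat.lt_or_ge (rs 7 a) 5 with h4 | h4
  · exact stD_spec (lo := 4) (n := 1) S hQ hc stD_4 (by omega) (by omega)
  rcases Nat.lt_or_ge (rs 7 a) 6 with h5 | h5
  · exact stD_spec (lo := 5) (n := 1) S hQ hc stD_5 (by omega) (by omega)
  exact stD_spec (lo := 6) (n := 1) S hQ hc stD_6 (by omega) (by omega)

/-- the ghost classes -/
def Gh (a b : ℤ) : Prop :=
  (a % 8 = 2 ∧ b % 8 = 7) ∧ (a % 19 = 2 ∧ b % 19 = 18) ∧ (a % 5 = 2 ∧ b % 5 = 4) ∧
  (a % 13 = 2 ∧ b % 13 = 12) ∧ (a % 7 = 2 ∧ b % 7 = 6)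

lemma gh_comp {p : ℕ} [NeZero p] {a b : ℤ} {x y : ℕ}
    (h : andB (Nat.beq (rs p a) x) (Nat.beq (rs p b) y) = true) :
    a % (p : ℤ) = x ∧ b % (p : ℤ) = y := by
  obtain ⟨h1, h2⟩ := andB_spec h
  have e1 := Nat.eq_of_beq_eq_true h1
  have e2 := Nat.eq_of_beq_eq_true h2
  have i1 : ((rs p a : ℕ) : ℤ) = a % p := ZMod.val_intCast a
  have i2 : ((rs p b : ℕ) : ℤ) = b % p := ZMod.val_intCast b
  rw [← i1, ← i2, e1, e2]
  exact ⟨rfl, rfl⟩

lemma ghB_spec {a b t : ℤ} (h : ghB (c69160 a b t) = true) : Gh a b := by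
  unfold ghB at h
  rw [cls_eq (c69160_8 a b t)] at h
  obtain ⟨h8, h⟩ := andB_spec h
  rw [cls_eq (c69160_19 a b t)] at h
  obtain ⟨h19, h⟩ := andB_spec h
  rw [cls_eq (c69160_5 a b t)] at h
  obtain ⟨h5, h⟩ := andB_spec h
  rw [cls_eq (c69160_13 a b t)] at h
  obtain ⟨h13, h⟩ := andB_spec h
  rw [cls_eq (c69160_7 a b t)] at h
  obtain ⟨h7, -⟩ := andB_spec h
  exact ⟨gh_comp h8, gh_comp h19, gh_comp h5, gh_comp h13, gh_comp h7⟩

/-- classes modulo 69160 -/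
lemma to69160 {Q : ℕ} {a b t : ℤ} (S : SysE Q a b t) (hQ : 17290 ∣ Q) (h8 : cl 8 a b t ∈ D8) :
    Gh a b := by
  have h := stageD S hQ (stageC S (Dvd.dvd.trans (by norm_num) hQ)
    (stageB S (Dvd.dvd.trans (by norm_num) hQ) h8))
  unfold okD at h
  cases hg : ghB (c69160 a b t) with
  | true => exact ghB_spec hg
  | false =>
    rw [hg] at h
    exact absurd (flt_spec S hQ (memB_spec h) fltD) id

/-- the solutions of the system -/
theorem ghost_sys {Q : ℕ} {a b t : ℤ} (S : SysE Q a b t) (hQ : 17290 ∣ Q) :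
    Gh a b ∨ Gh (-a) (-b) := by
  rcases mem_D8 S with h | h
  · exact Or.inl (to69160 S hQ h)
  · exact Or.inr (to69160 S.neg hQ h)

lemma prime_dvd_list {p : ℕ} (hp : p.Prime) {L : List ℕ} (hL : ∀ q ∈ L, q.Prime)
    (h : p ∣ L.prod) : p ∈ L := by
  obtain ⟨q, hq, h1⟩ := (Nat.Prime.prime hp).dvd_prod_iff.1 h
  rw [(Nat.prime_dvd_prime_iff_eq hp (hL q hq)).1 h1]
  exact hq

/-- the family with `r = 7` -/
lemma no_7 {t : ℤ} (S : SysE 190 (6 : ℕ) ((6 : ℕ) * t - (1 : ℕ)) t) : False := by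
  rcases mem_D8 S with h | h
  · have h1 := fam760_specF f760_7 (stageB S dvd_rfl h)
    exact absurd h1 (by simp)
  · have h1 := fam760_specN f760_7 (stageB S.neg dvd_rfl h)
    exact absurd h1 (by simp)

/-- the families with `r = 19` -/
lemma no_19a {t : ℤ} (S : SysE 910 (6 : ℕ) ((6 : ℕ) * t - (3 : ℕ)) t) : False :=
  famA_spec S dvd_rfl fA_6
lemma no_19b {t : ℤ} (S : SysE 910 (18 : ℕ) ((18 : ℕ) * t - (1 : ℕ)) t) : False :=
  famA_spec S dvd_rfl fA_18

section Main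

variable {a b B : ℕ} {m r : ℤ}
  [IsDomain (QuadraticAlgebra ℤ m (B : ℤ))] [UniqueFactorizationMonoid (QuadraticAlgebra ℤ m (B : ℤ))]

/-- the system for a list of primes -/
lemma sys_list (h : E4.Par a b B m r) (hm2 : m % 2 = 1) (hB2 : B % 2 = 1) (ha2 : a % 4 = 2)
    (hm : 19 < m) (L : List ℕ) (hL : ∀ q ∈ L, q.Prime) (hL' : ∀ q ∈ L, q ≤ 19)
    (hr : ∀ q ∈ L, q ≠ 2 → (q : ℤ) ≠ r) {Q : ℕ} (hQ : Q = L.prod) :
    ∃ t : ℤ, zB a b t = B ∧ zm a b t = m ∧ zr a b t = r ∧ SysE Q a b t := by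
  subst hQ
  refine sys_of h hm2 hB2 ha2 ?_
  intro p hp hp2 hd
  have h1 := prime_dvd_list hp hL hd
  have h2 := hL' p h1
  exact ⟨by omega, hr p h1 hp2⟩

/-- **elimination for period four, first partial quotient two modulo four** -/
theorem elim4e (h : E4.Par a b B m r) (hm2 : m % 2 = 1) (hB2 : B % 2 = 1) (ha2 : a % 4 = 2)
    (ha3 : 6 ≤ a) (hm : 19 < m) :
    (∀ q ∈ ({5, 7, 13, 19} : Finset ℕ), (q : ℤ) ≠ r) ∧ (Gh a b ∨ Gh (-a) (-b)) := by
  have e1 := h.e1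
  have hr := h.hr
  -- `a` divides `r - 1`
  have hdiv : (a : ℤ) ∣ r - 1 := ⟨B - m * a, by rw [e1]; ring⟩
  have fam : ∀ t : ℤ, ∀ a0 s : ℕ, a = a0 → zr a b t = r → r = 1 + a0 * s → 
      (b : ℤ) = (a0 : ℤ) * t - s := by
    intro t a0 s h1 h2 h3
    subst h1
    have h4 : (a : ℤ) * (a * t - b) = a * s := by
      rw [← h2] at h3
      unfold zr at h3
      linear_combination h3
    have h5 := mul_left_cancel₀ (by positivity : (a : ℤ) ≠ 0) h4
    linarith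
  have r4 : r % 4 = 3 := by
    obtain ⟨t, hB, hm', hz⟩ := exists_t h
    obtain ⟨hb1, -⟩ := parity (r := r) (by omega) hm2 hB2 hB hm'
    rw [← hz]
    unfold zr
    obtain ⟨i, hi⟩ : ∃ i : ℤ, (a : ℤ) = 4 * i + 2 := ⟨(a : ℤ) / 4, by omega⟩
    obtain ⟨j, hj⟩ : ∃ j : ℤ, (b : ℤ) = 2 * j + 1 := ⟨(b : ℤ) / 2, by omega⟩
    have e : 1 - (a : ℤ) * b + a * a * t
        = 4 * (-(2 * i * j) - i - j - 1 + (2 * i + 1) * (2 * i + 1) * t) + 3 := by
      rw [hi, hj]; ring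
    omega
  by_cases r7 : r = 7
  · exfalso
    rw [r7] at hdiv
    have h1 := Int.le_of_dvd (by omega) hdiv
    have h2 : a = 6 := by omega
    obtain ⟨t, -, -, hz, S⟩ := sys_list h hm2 hB2 ha2 hm [2, 5, 19] (by decide) (by decide)
      (by rw [r7]; decide) (Q := 190) (by norm_num)
    have hb := fam t 6 1 h2 hz (by rw [r7]; norm_num)
    rw [hb, h2] at S
    exact no_7 S
  by_cases r19 : r = 19
  · exfalso
    rw [r19] at hdiv
    have h1 := Int.le_of_dvd (by omega) hdiv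
    have h2 : a = 6 ∨ a = 10 ∨ a = 14 ∨ a = 18 := by omega
    rcases h2 with h2 | h2 | h2 | h2
    · obtain ⟨t, -, -, hz, S⟩ := sys_list h hm2 hB2 ha2 hm [2, 5, 7, 13] (by decide)
        (by decide) (by rw [r19]; decide) (Q := 910) (by norm_num)
      have hb := fam t 6 3 h2 hz (by rw [r19]; norm_num)
      rw [hb, h2] at S
      exact no_19a S
    · rw [h2] at hdiv; norm_num at hdiv
    · rw [h2] at hdiv; norm_num at hdiv
    · obtain ⟨t, -, -, hz, S⟩ := sys_list h hm2 hB2 ha2 hm [2, 5, 7, 13] (by decide)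
        (by decide) (by rw [r19]; decide) (Q := 910) (by norm_num)
      have hb := fam t 18 1 h2 hz (by rw [r19]; norm_num)
      rw [hb, h2] at S
      exact no_19b S
  refine ⟨?_, ?_⟩
  · intro q hq
    simp only [Finset.mem_insert, Finset.mem_singleton] at hq
    rcases hq with rfl | rfl | rfl | rfl <;> push_cast <;> omega
  · obtain ⟨t, -, -, -, S⟩ := sys_list h hm2 hB2 ha2 hm [2, 5, 7, 13, 19] (by decide)
      (by decide) (by
        intro q hq _
        simp only [List.mem_cons, List.not_mem_nil, or_false] at hq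
        rcases hq with rfl | rfl | rfl | rfl | rfl <;> push_cast <;> omega)
      (Q := 17290) (by norm_num)
    exact ghost_sys S dvd_rfl

end Main

end Pool.Agent.P4E
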