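import Pool.Agent.P4E.FnA

/-!
Stage D: classes modulo 69160.
-/

namespace Pool.Agent.P4E

open Finset
open Pool.Agent.LibH4 Pool.Agent.LibH4.Ker Pool.Agent.LibH4.T6 Pool.Agent.LibH4.KF
open Pool.Agent.Lib_helper5 Pool.Agent.Lib_helper5.LK Pool.Agent.Lib_helper5.K4

/-- the rows of a class -/
def rowsD (G_d1 G_d3 G_d4 : List (ℕ × ℕ × ℕ)) (c : ℕ)
    (k : ((ℕ × ℕ) × ℕ) × ℕ → Bool) : Bool :=
  wq (nat_lit 8) (nat_lit 1) c fun _ _ B8 m8 nm8 nr8 R8 _ =>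
  wq (nat_lit 19) (nat_lit 512) c fun a19 b19 B19 _ _ _ _ _ =>
  wq (nat_lit 13) (nat_lit 438976000) c fun a13 b13 B13 _ nm13 nr13 R13 d13 =>
  rowA (nat_lit 13) T1_d1 (nat_lit 640) G_d1 W_d1 Y1_d1 Y0_d1 (nat_lit 1) (nat_lit 13) d13
    (FK4 (nat_lit 13) (nat_lit 13) a13 b13 B13 B13 nm13 nr13 R13) (nat_lit 0) fun A =>
    strict A fun A_d1 =>
  rowA (nat_lit 13) T1_d3 (nat_lit 7680) G_d3 W_d3 Y1_d3 Y0_d3 (nat_lit 0) (nat_lit 19) d13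
    (FK4 (nat_lit 13) (nat_lit 19) a19 b19 B19 B13 nm13 nr13 R13) (nat_lit 0) fun A =>
    strict A fun A_d3 =>
  rowA (nat_lit 13) T1_d4 (nat_lit 7680) G_d4 W_d4 Y1_d4 Y0_d4 (nat_lit 1) (nat_lit 13) d13
    (FK4 (nat_lit 13) (nat_lit 13) a13 b13 B13 B13 nm13 nr13 R13) (nat_lit 0) fun A =>
    strict A fun A_d4 =>
  strict (red (nat_lit 7680) (nat_lit 640) (nat_lit 7040) (nat_lit 3) A_d3
    (vecA (nat_lit 8) T2_d3 (Nat.pow (nat_lit 2) (nat_lit 640)) (nat_lit 7680) L8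
      (forms4 (nat_lit 8) B8 m8 nm8 nr8 R8) (nat_lit 0))) fun R_d3 =>
  strict (red (nat_lit 7680) (nat_lit 640) (nat_lit 7040) (nat_lit 3) A_d4
    (vecA (nat_lit 8) T2_d4 (Nat.pow (nat_lit 2) (nat_lit 640)) (nat_lit 7680) L8
      (forms4 (nat_lit 8) B8 m8 nm8 nr8 R8) (nat_lit 0))) fun R_d4 =>
  k (((c, R_d4), R_d3), A_d1)

lemma rowsD_ex {c : ℕ} {k : ((ℕ × ℕ) × ℕ) × ℕ → Bool}
    (h : rowsD (ds13.map fun δ => (δ, gg 13 T1_d1 640 δ, LK.gs 13 T1_d1 δ))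
      (ds13.map fun δ => (δ, gg 13 T1_d3 7680 δ, LK.gs 13 T1_d3 δ))
      (ds13.map fun δ => (δ, gg 13 T1_d4 7680 δ, LK.gs 13 T1_d4 δ)) c k = true) :
    ∃ y, k y = true := by
  unfold rowsD at h
  obtain ⟨_, _, _, _, _, _, _, _, h⟩ := wq_ex h
  obtain ⟨_, _, _, _, _, _, _, _, h⟩ := wq_ex h
  obtain ⟨_, _, _, _, _, _, _, _, h⟩ := wq_ex h
  obtain ⟨_, h⟩ := rowA_ex (by norm_num) (by norm_num) h
  obtain ⟨_, h⟩ := rowA_ex (by norm_num) (by norm_num) h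
  obtain ⟨_, h⟩ := rowA_ex (by norm_num) (by norm_num) h
  simp only [strict_eq] at h
  exact ⟨_, h⟩

/-- the value of the rows -/
def gD (a b t : ℤ) : ((ℕ × ℕ) × ℕ) × ℕ :=
  (((c9880 a b t,
    red 7680 640 7040 3 (RA 13 T1_d4 7680 W_d4 Y1_d4 Y0_d4 13 (zd a b t) (J4 a b t)) (VA 8 T2_d4 640 7680 L8 (J4 a b t))),
    red 7680 640 7040 3 (RA 13 T1_d3 7680 W_d3 Y1_d3 Y0_d3 19 (zd a b t) (J4 a b t)) (VA 8 T2_d3 640 7680 L8 (J4 a b t))),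
    RA 13 T1_d1 640 W_d1 Y1_d1 Y0_d1 13 (zd a b t) (J4 a b t))

/-- the conditions of the rows -/
def CD (a b t : ℤ) : Prop :=
  RC 13 T1_d1 1 13 (zd a b t) (J4 a b t) ∧
  RC 13 T1_d3 0 19 (zd a b t) (J4 a b t) ∧
  RC 13 T1_d4 1 13 (zd a b t) (J4 a b t)

lemma rowsD_eq {a b t : ℤ} {k : ((ℕ × ℕ) × ℕ) × ℕ → Bool}
    (h : rowsD (ds13.map fun δ => (δ, gg 13 T1_d1 640 δ, LK.gs 13 T1_d1 δ))
      (ds13.map fun δ => (δ, gg 13 T1_d3 7680 δ, LK.gs 13 T1_d3 δ))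
      (ds13.map fun δ => (δ, gg 13 T1_d4 7680 δ, LK.gs 13 T1_d4 δ)) (c9880 a b t) k = true) :
    k (gD a b t) = true ∧ CD a b t := by
  unfold rowsD at h
  rw [wq_eq (c9880_8 a b t), wq_eq (c9880_19 a b t), wq_eq (c9880_13 a b t)] at h
  rw [FK4_eq (p := 13) (l := 13), FK4_eq (p := 13) (l := 19)] at h
  rw [forms4_eq (p := 8) (by norm_num), vecA_use, vecA_use] at h
  obtain ⟨h, C_d1⟩ := rowA_use (by norm_num) (by norm_num) h
  obtain ⟨h, C_d3⟩ := rowA_use (by norm_num) (by norm_num) h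
  obtain ⟨h, C_d4⟩ := rowA_use (by norm_num) (by norm_num) h
  simp only [strict_eq] at h
  exact ⟨h, C_d1, C_d3, C_d4⟩

/-- the check -/
def stD (lo n : ℕ) : Bool :=
  ggl (nat_lit 13) T1_d1 (nat_lit 640) ds13 fun G_d1 =>
  ggl (nat_lit 13) T1_d3 (nat_lit 7680) ds13 fun G_d3 =>
  ggl (nat_lit 13) T1_d4 (nat_lit 7680) ds13 fun G_d4 =>
  ggl (nat_lit 7) T3_d1 (nat_lit 80) ds7 fun H_d1 =>
  ggl (nat_lit 7) T3_d3 (nat_lit 80) ds7 fun H_d3 =>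
  mapC (rowsD G_d1 G_d3 G_d4) S9880 fun E =>
  allR (fun aa => strict (Nat.add aa lo) fun a => allR (fun b => allR (fun t =>
   withP4 (nat_lit 7) a b t fun B m nm nr R d =>
   @Bool.rec (fun _ => Bool) true (
    (fun F : List (ℕ × ℕ × ℕ) =>
     vecC (nat_lit 7) T3_d1 (nat_lit 80) (nat_lit 640) H_d1 d F fun v => strict v fun v_d1 =>
     vecC (nat_lit 7) T3_d3 (nat_lit 80) (nat_lit 640) H_d3 d F fun v => strict v fun v_d3 =>
     strict (vecB (nat_lit 7) T3_d4 (nat_lit 1208925819614629174706176) (nat_lit 640) L7 F) fun v_d4 =>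
     strict (Nat.mul (nat_lit 964430272000) (cdK (nat_lit 7) (a, b, t))) fun cn =>
     allQ (fun x => cond0 (ip (nat_lit 2197) (nat_lit 1840) x.2 v_d1)
       (cond0 (ip (nat_lit 19) (nat_lit 1840) x.1.2 v_d3)
       (cond0 (ip (nat_lit 2197) (nat_lit 1840) x.1.1.2 v_d4)
       (strict (Nat.add x.1.1.1 cn) fun c => okD c)))) E)
    (forms4 (nat_lit 7) B m nm nr R))
   (Nat.beq (Nat.mod (Nat.pow d (nat_lit 3)) (nat_lit 7)) (nat_lit 6)))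
   (nat_lit 7)) (nat_lit 7)) n

theorem stD_spec {Q : ℕ} {a b t : ℤ} (S : SysE Q a b t) (hQ : 17290 ∣ Q) (hc : c9880 a b t ∈ S9880)
    {lo n : ℕ} (h : stD lo n = true) (ha : lo ≤ rs 7 a) (ha' : rs 7 a < lo + n) :
    okD (c69160 a b t) = true := by
  unfold stD at h
  simp only [ggl_eq] at h
  obtain ⟨E, h, hE, C_d1, C_d3, C_d4⟩ :=
    mapC_mem hc (fun k' => rowsD_eq) (fun x _ k' => rowsD_ex) h
  have h := allR_spec h (rs 7 a - lo) (by omega)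
  rw [strict_eq] at h
  have ea : Nat.add (rs 7 a - lo) lo = rs 7 a := by
    change rs 7 a - lo + lo = _
    omega
  rw [ea] at h
  have h := allR_spec h (rs 7 b) (rs_lt b)
  have h := allR_spec h (rs 7 t) (rs_lt t)
  rw [withP4_eq] at h
  have ii : Nat.beq (Nat.mod (Nat.pow (rs 7 (zd a b t)) (nat_lit 3)) (nat_lit 7)) (nat_lit 6)
    = true := S.inr 7 (by norm_num) (by norm_num) (Dvd.dvd.trans (by norm_num) hQ)
  rw [ii] at h
  rw [forms4_eq (by norm_num)] at h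
  obtain ⟨h, I_d1⟩ := vecC_use (by norm_num) h
  obtain ⟨h, I_d3⟩ := vecC_use (by norm_num) h
  rw [strict_eq, vecB_use] at h
  rw [strict_eq] at h
  have h := allQ_spec h _ hE
  have h := cond0_zero (zC_d1 S (Dvd.dvd.trans (by norm_num) hQ) C_d1 I_d1) h
  have h := cond0_zero (zC_d3 S (Dvd.dvd.trans (by norm_num) hQ) C_d3 I_d3) h
  have h := cond0_zero (zB_d4 S (Dvd.dvd.trans (by norm_num) hQ) C_d4) h
  rw [strict_eq] at h
  exact h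

end Pool.Agent.P4E
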