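import Pool.Agent.Lib_helper5.K4.Sys

/-!
The system of conditions on the parameters of the family of period four, first partial quotient
congruent to two modulo four.
-/

namespace Pool.Agent.P4E

open Finset
open Pool.Agent.LibH4 Pool.Agent.LibH4.Ker Pool.Agent.LibH4.T6 Pool.Agent.LibH4.KF
open Pool.Agent.Lib_helper5 Pool.Agent.Lib_helper5.LK Pool.Agent.Lib_helper5.K4
open Pool.Agent.Lib_helper5.K5 (In)

/-- the system of conditions -/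
structure SysE (Q : ℕ) (a b t : ℤ) : Prop where
  oa : a % 4 = 2
  ob : b % 2 = 1
  ot : t % 2 = 0
  inr : ∀ p : ℕ, p.Prime → p ≠ 2 → p ∣ Q → In p (zd a b t)
  rel : AllRel Q a b t

lemma SysE.neg {Q : ℕ} {a b t : ℤ} (h : SysE Q a b t) : SysE Q (-a) (-b) t where
  oa := by have := h.oa; omega
  ob := by have := h.ob; omega
  ot := h.ot
  inr := by rw [zd_neg]; exact h.inr
  rel := fun n1 n2 n3 N T1 T2 T3 _ _ _ _ _ h1 h2 h3 h4 h5 h6 =>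
    Rel_neg _ (h.rel n1 n2 n3 N T1 T2 T3 h1 h2 h3 h4 h5 h6)

lemma SysE.mono {Q Q' : ℕ} {a b t : ℤ} (h : SysE Q a b t) (hQ : Q' ∣ Q) : SysE Q' a b t where
  oa := h.oa
  ob := h.ob
  ot := h.ot
  inr := fun p hp hp2 hd => h.inr p hp hp2 (hd.trans hQ)
  rel := fun n1 n2 n3 N T1 T2 T3 _ _ _ _ _ h1 h2 h3 h4 h5 h6 =>
    h.rel n1 n2 n3 N T1 T2 T3 h1 h2 h3 h4 h5 (h6.trans (pow_dvd_pow_of_dvd hQ 6))

/-- parity of the parameters -/
lemma parity {a b B : ℕ} {m r t : ℤ} (ha : a % 2 = 0) (hm2 : m % 2 = 1) (hB2 : B % 2 = 1)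
    (hB : zB a b t = B) (hm : zm a b t = m) : (b : ℤ) % 2 = 1 ∧ t % 2 = 0 := by
  obtain ⟨i, hi⟩ : ∃ i : ℤ, (a : ℤ) = 2 * i := ⟨(a : ℤ) / 2, by omega⟩
  have eB : zB a b t % 2 = 1 := by rw [hB]; omega
  have em : zm a b t % 2 = 1 := by rw [hm]; omega
  rcases Int.emod_two_eq_zero_or_one (b : ℤ) with hb | hb
  · exfalso
    obtain ⟨k, hk⟩ : ∃ k : ℤ, (b : ℤ) = 2 * k := ⟨(b : ℤ) / 2, by omega⟩
    have e : zB a b t = 2 * (i * t * (2 + a * b) - k * (1 + a * b)) := by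
      unfold zB; rw [hk, hi]; ring
    omega
  · refine ⟨hb, ?_⟩
    obtain ⟨k, hk⟩ : ∃ k : ℤ, (b : ℤ) = 2 * k + 1 := ⟨(b : ℤ) / 2, by omega⟩
    rcases Int.emod_two_eq_zero_or_one t with ht | ht
    · exact ht
    · exfalso
      obtain ⟨j, hj⟩ : ∃ j : ℤ, t = 2 * j + 1 := ⟨t / 2, by omega⟩
      have e : zm a b t = 2 * (j + t * i * b - 2 * k ^ 2 - 2 * k) := by
        unfold zm
        rw [hi]
        rw [show (b : ℤ) * b = (2 * k + 1) * (2 * k + 1) by rw [hk]]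
        rw [show t * (1 + 2 * i * (b : ℤ)) = t + 2 * (t * i * b) by ring, hj]
        ring
      omega

lemma sys_of {a b B : ℕ} {m r : ℤ} (h : E4.Par a b B m r) (hm2 : m % 2 = 1) (hB2 : B % 2 = 1)
    (ha2 : a % 4 = 2)
    [IsDomain (QuadraticAlgebra ℤ m (B : ℤ))]
    [UniqueFactorizationMonoid (QuadraticAlgebra ℤ m (B : ℤ))] {Q : ℕ}
    (hQ : ∀ p : ℕ, p.Prime → p ≠ 2 → p ∣ Q → (p : ℤ) < m ∧ (p : ℤ) ≠ r) :
    ∃ t : ℤ, zB a b t = B ∧ zm a b t = m ∧ zr a b t = r ∧ SysE Q a b t := by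
  obtain ⟨t, hB, hm, hr⟩ := exists_t h
  refine ⟨t, hB, hm, hr, ?_⟩
  obtain ⟨d, hd⟩ : ∃ d : ℕ, (d : ℤ) = (B : ℤ) ^ 2 + 4 * m := by
    refine ⟨((B : ℤ) ^ 2 + 4 * m).toNat, Int.toNat_of_nonneg ?_⟩
    have : (0 : ℤ) ≤ (B : ℤ) ^ 2 := sq_nonneg _
    have := h.hm
    omega
  have h8 : d % 8 = 5 := by
    obtain ⟨j, hj⟩ : ∃ j : ℤ, (B : ℤ) = 2 * j + 1 := ⟨(B : ℤ) / 2, by omega⟩
    obtain ⟨i, hi⟩ : ∃ i : ℤ, m = 2 * i + 1 := ⟨m / 2, by omega⟩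
    have e : (d : ℤ) = 4 * (j * (j + 1)) + 8 * i + 5 := by rw [hd, hj, hi]; ring
    obtain ⟨k, hk⟩ : ∃ k : ℤ, j * (j + 1) = 2 * k := by
      have := Int.even_mul_succ_self j
      obtain ⟨k, hk⟩ := this
      exact ⟨k, by omega⟩
    rw [hk] at e
    omega
  have cop : ∀ p : ℕ, p.Prime → p ∣ Q → ¬ p ∣ d := by
    intro p hp hpQ hdvd
    rcases eq_or_ne p 2 with rfl | hp2
    · omega
    obtain ⟨h0, h0'⟩ := hQ p hp hp2 hpQ
    have h1 := E4.inert h hd h8 p hp hp2 h0' h0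
    have h2 : jacobiSym (d : ℤ) p ≠ 0 := by rw [h1]; norm_num
    apply h2
    have : Fact p.Prime := ⟨hp⟩
    rw [← jacobiSym.legendreSym.to_jacobiSym, legendreSym.eq_zero_iff]
    have : ((d : ℕ) : ZMod p) = 0 := by rw [ZMod.natCast_eq_zero_iff]; exact hdvd
    exact_mod_cast this
  have hcopP : Nat.Coprime d (Q ^ 6) := by
    apply Nat.Coprime.pow_right
    by_contra hc
    obtain ⟨p, hp, h1, h2⟩ := Nat.Prime.not_coprime_iff_dvd.1 hc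
    exact cop p hp h2 h1
  have ha' : (a : ℤ) % 4 = 2 := by omega
  have hpar := parity (r := r) (by omega) hm2 hB2 hB hm
  refine ⟨ha', hpar.1, hpar.2, ?_, ?_⟩
  · intro p hp hp2 hpQ
    obtain ⟨h0, h0'⟩ := hQ p hp hp2 hpQ
    exact in_of h hd h8 hB hm hp hp2 h0' h0
  intro n1 n2 n3 N T1 T2 T3 _ _ _ _ _ h1 h2 h3 h4 hN2 h5
  have hN : 0 < N := by omega
  obtain ⟨ho, hs⟩ := relOk_spec hN h1 h2 h3 h4
  have hdq : Nat.Coprime (n1 * n2 * n3) d :=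
    (Nat.Coprime.coprime_dvd_right ((Dvd.intro _ rfl).trans h5) hcopP).symm
  have hdN : Nat.Coprime d N := Nat.Coprime.coprime_dvd_right ((Dvd.intro_left _ rfl).trans h5) hcopP
  have hc := tri_char (n1 := n1) (n2 := n2) (n3 := n3) (tabCk_char h2) (tabCk_char h3)
    (tabCk_char h4)
  exact rel_of h hm2 hB2 hd h8 hB hm hr hdq hN2 hdN _ ho hc.mul hs

end Pool.Agent.P4E
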