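import Pool.Agent.P4E.Cls
import Pool.Agent.Lib_helper5.K4.Da
import Pool.Agent.Lib_helper5.K4.Db
import Pool.Agent.Lib_helper5.K4.Dc
import Pool.Agent.Lib_helper5.K4.Dd
import Pool.Agent.Lib_helper5.K4.De
import Pool.Agent.Lib_helper5.K4.Df
import Pool.Agent.Lib_helper5.K4.Dg
import Pool.Agent.Lib_helper5.K4.Dh

/-! generated: vanishing of the values of the relations -/

namespace Pool.Agent.P4E

open Finset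
open Pool.Agent.LibH4 Pool.Agent.LibH4.Ker Pool.Agent.LibH4.T6 Pool.Agent.LibH4.KF
open Pool.Agent.Lib_helper5 Pool.Agent.Lib_helper5.LK Pool.Agent.Lib_helper5.K4

/-- direct vectors -/
theorem zB_a1 {Q : ℕ} {a b t : ℤ} (S : SysE Q a b t) (hQ : 38 ∣ Q) (hC : RC 19 T1_a1 1 19 (zd a b t) (J4 a b t)) :
    ip 6859 2800 (RA 19 T1_a1 960 W_a1 Y1_a1 Y0_a1 19 (zd a b t) (J4 a b t)) (VB 8 T3_a1 960 L8 (J4 a b t)) = 0 :=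
  good_a1.twoB (J4_ok a b t) hC (by decide) ((S.mono hQ).rel 19 1 8 6859 T1_a1 T2_a1 T3_a1 rok_a1 tab1_a1 tab2_a1 tab3_a1 (by norm_num) (by norm_num)) (K := 3) rfl (by norm_num [BA, L8]) (by simp [L8])

/-- direct vectors -/
theorem zB_a2 {Q : ℕ} {a b t : ℤ} (S : SysE Q a b t) (hQ : 38 ∣ Q) (hC : RC 19 T1_a2 1 19 (zd a b t) (J4 a b t)) :
    ip 6859 2800 (RA 19 T1_a2 960 W_a2 Y1_a2 Y0_a2 19 (zd a b t) (J4 a b t)) (VB 8 T3_a2 960 L8 (J4 a b t)) = 0 :=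
  good_a2.twoB (J4_ok a b t) hC (by decide) ((S.mono hQ).rel 19 1 8 6859 T1_a2 T2_a2 T3_a2 rok_a2 tab1_a2 tab2_a2 tab3_a2 (by norm_num) (by norm_num)) (K := 3) rfl (by norm_num [BA, L8]) (by simp [L8])

/-- direct vectors -/
theorem zB_b1 {Q : ℕ} {a b t : ℤ} (S : SysE Q a b t) (hQ : 95 ∣ Q) (hC : RC 19 T1_b1 1 19 (zd a b t) (J4 a b t)) :
    ip 6859 1360 (RA 19 T1_b1 480 W_b1 Y1_b1 Y0_b1 19 (zd a b t) (J4 a b t)) (VB 5 T3_b1 480 L5 (J4 a b t)) = 0 :=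
  good_b1.twoB (J4_ok a b t) hC (by decide) ((S.mono hQ).rel 19 1 5 6859 T1_b1 T2_b1 T3_b1 rok_b1 tab1_b1 tab2_b1 tab3_b1 (by norm_num) (by norm_num)) (K := 3) rfl (by norm_num [BA, L5]) (by simp [L5])

/-- vectors by completing the square -/
theorem zC_b1 {Q : ℕ} {a b t : ℤ} (S : SysE Q a b t) (hQ : 95 ∣ Q) (hC : RC 19 T1_b1 1 19 (zd a b t) (J4 a b t))
    (hi : ∀ x ∈ (J4 a b t).map (fkI 5), 2 * x.2.2 * ii 5 x.2.2 % 5 = 1) :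
    ip 6859 1360 (RA 19 T1_b1 480 W_b1 Y1_b1 Y0_b1 19 (zd a b t) (J4 a b t)) (VC 5 T3_b1 480 (zd a b t) (J4 a b t)) = 0 :=
  (L5_eq ▸ good_b1).twoC (J4_ok a b t) hC (by decide) ((S.mono hQ).rel 19 1 5 6859 T1_b1 T2_b1 T3_b1 rok_b1 tab1_b1 tab2_b1 tab3_b1 (by norm_num) (by norm_num)) hi (K := 3) rfl (by norm_num [BA]) (by norm_num)

/-- direct vectors -/
theorem zB_b2 {Q : ℕ} {a b t : ℤ} (S : SysE Q a b t) (hQ : 190 ∣ Q) (hC : RC 19 T1_b2 1 19 (zd a b t) (J4 a b t)) :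
    ip 6859 17200 (RA 19 T1_b2 5760 W_b2 Y1_b2 Y0_b2 19 (zd a b t) (J4 a b t)) (VB 40 T3_b2 5760 L40 (J4 a b t)) = 0 :=
  good_b2.twoB (J4_ok a b t) hC (by decide) ((S.mono hQ).rel 19 1 40 6859 T1_b2 T2_b2 T3_b2 rok_b2 tab1_b2 tab2_b2 tab3_b2 (by norm_num) (by norm_num)) (K := 3) rfl (by norm_num [BA, L40]) (by simp [L40])

/-- direct vectors -/
theorem zB_b3 {Q : ℕ} {a b t : ℤ} (S : SysE Q a b t) (hQ : 190 ∣ Q) (hC : RC 19 T1_b3 1 19 (zd a b t) (J4 a b t)) :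
    ip 6859 17200 (RA 19 T1_b3 5760 W_b3 Y1_b3 Y0_b3 19 (zd a b t) (J4 a b t)) (VB 40 T3_b3 5760 L40 (J4 a b t)) = 0 :=
  good_b3.twoB (J4_ok a b t) hC (by decide) ((S.mono hQ).rel 19 1 40 6859 T1_b3 T2_b3 T3_b3 rok_b3 tab1_b3 tab2_b3 tab3_b3 (by norm_num) (by norm_num)) (K := 3) rfl (by norm_num [BA, L40]) (by simp [L40])

/-- direct vectors -/
theorem zB_c1 {Q : ℕ} {a b t : ℤ} (S : SysE Q a b t) (hQ : 247 ∣ Q) (hC : RC 19 T1_c1 1 19 (zd a b t) (J4 a b t)) :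
    ip 6859 3280 (RA 19 T1_c1 1120 W_c1 Y1_c1 Y0_c1 19 (zd a b t) (J4 a b t)) (VB 13 T3_c1 1120 L13 (J4 a b t)) = 0 :=
  good_c1.twoB (J4_ok a b t) hC (by decide) ((S.mono hQ).rel 19 1 13 6859 T1_c1 T2_c1 T3_c1 rok_c1 tab1_c1 tab2_c1 tab3_c1 (by norm_num) (by norm_num)) (K := 3) rfl (by norm_num [BA, L13]) (by simp [L13])

/-- vectors by completing the square -/
theorem zC_c1 {Q : ℕ} {a b t : ℤ} (S : SysE Q a b t) (hQ : 247 ∣ Q) (hC : RC 19 T1_c1 1 19 (zd a b t) (J4 a b t))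
    (hi : ∀ x ∈ (J4 a b t).map (fkI 13), 2 * x.2.2 * ii 13 x.2.2 % 13 = 1) :
    ip 6859 3280 (RA 19 T1_c1 1120 W_c1 Y1_c1 Y0_c1 19 (zd a b t) (J4 a b t)) (VC 13 T3_c1 1120 (zd a b t) (J4 a b t)) = 0 :=
  (L13_eq ▸ good_c1).twoC (J4_ok a b t) hC (by decide) ((S.mono hQ).rel 19 1 13 6859 T1_c1 T2_c1 T3_c1 rok_c1 tab1_c1 tab2_c1 tab3_c1 (by norm_num) (by norm_num)) hi (K := 3) rfl (by norm_num [BA]) (by norm_num)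

/-- direct vectors -/
theorem zB_c2 {Q : ℕ} {a b t : ℤ} (S : SysE Q a b t) (hQ : 247 ∣ Q) (hC : RC 19 T1_c2 1 19 (zd a b t) (J4 a b t)) :
    ip 6859 3280 (RA 19 T1_c2 1120 W_c2 Y1_c2 Y0_c2 19 (zd a b t) (J4 a b t)) (VB 13 T3_c2 1120 L13 (J4 a b t)) = 0 :=
  good_c2.twoB (J4_ok a b t) hC (by decide) ((S.mono hQ).rel 19 1 13 6859 T1_c2 T2_c2 T3_c2 rok_c2 tab1_c2 tab2_c2 tab3_c2 (by norm_num) (by norm_num)) (K := 3) rfl (by norm_num [BA, L13]) (by simp [L13])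

/-- vectors by completing the square -/
theorem zC_c2 {Q : ℕ} {a b t : ℤ} (S : SysE Q a b t) (hQ : 247 ∣ Q) (hC : RC 19 T1_c2 1 19 (zd a b t) (J4 a b t))
    (hi : ∀ x ∈ (J4 a b t).map (fkI 13), 2 * x.2.2 * ii 13 x.2.2 % 13 = 1) :
    ip 6859 3280 (RA 19 T1_c2 1120 W_c2 Y1_c2 Y0_c2 19 (zd a b t) (J4 a b t)) (VC 13 T3_c2 1120 (zd a b t) (J4 a b t)) = 0 :=
  (L13_eq ▸ good_c2).twoC (J4_ok a b t) hC (by decide) ((S.mono hQ).rel 19 1 13 6859 T1_c2 T2_c2 T3_c2 rok_c2 tab1_c2 tab2_c2 tab3_c2 (by norm_num) (by norm_num)) hi (K := 3) rfl (by norm_num [BA]) (by norm_num)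

/-- direct vectors -/
theorem zB_c4 {Q : ℕ} {a b t : ℤ} (S : SysE Q a b t) (hQ : 130 ∣ Q) (hC : RC 5 T1_c4 1 5 (zd a b t) (J4 a b t)) :
    ip 125 3280 (red 13440 1120 12320 3 (RA 5 T1_c4 13440 W_c4 Y1_c4 Y0_c4 5 (zd a b t) (J4 a b t)) (VA 8 T2_c4 1120 13440 L8 (J4 a b t))) (VB 13 T3_c4 1120 L13 (J4 a b t)) = 0 :=
  good_c4.threeB (J4_ok a b t) hC ((S.mono hQ).rel 5 8 13 125 T1_c4 T2_c4 T3_c4 rok_c4 tab1_c4 tab2_c4 tab3_c4 (by norm_num) (by norm_num)) (K := 3) rfl (by norm_num [BA, L8, L13]) (by simp [L13]) (by simp [L8])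

/-- vectors by completing the square -/
theorem zC_c4 {Q : ℕ} {a b t : ℤ} (S : SysE Q a b t) (hQ : 130 ∣ Q) (hC : RC 5 T1_c4 1 5 (zd a b t) (J4 a b t))
    (hi : ∀ x ∈ (J4 a b t).map (fkI 13), 2 * x.2.2 * ii 13 x.2.2 % 13 = 1) :
    ip 125 3280 (red 13440 1120 12320 3 (RA 5 T1_c4 13440 W_c4 Y1_c4 Y0_c4 5 (zd a b t) (J4 a b t)) (VA 8 T2_c4 1120 13440 L8 (J4 a b t))) (VC 13 T3_c4 1120 (zd a b t) (J4 a b t)) = 0 :=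
  (L13_eq ▸ good_c4).threeC (J4_ok a b t) hC ((S.mono hQ).rel 5 8 13 125 T1_c4 T2_c4 T3_c4 rok_c4 tab1_c4 tab2_c4 tab3_c4 (by norm_num) (by norm_num)) hi (K := 3) rfl (by norm_num [BA, L8]) (by norm_num) (by simp [L8])

/-- direct vectors -/
theorem zB_d1 {Q : ℕ} {a b t : ℤ} (S : SysE Q a b t) (hQ : 91 ∣ Q) (hC : RC 13 T1_d1 1 13 (zd a b t) (J4 a b t)) :
    ip 2197 1840 (RA 13 T1_d1 640 W_d1 Y1_d1 Y0_d1 13 (zd a b t) (J4 a b t)) (VB 7 T3_d1 640 L7 (J4 a b t)) = 0 :=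
  good_d1.twoB (J4_ok a b t) hC (by decide) ((S.mono hQ).rel 13 1 7 2197 T1_d1 T2_d1 T3_d1 rok_d1 tab1_d1 tab2_d1 tab3_d1 (by norm_num) (by norm_num)) (K := 3) rfl (by norm_num [BA, L7]) (by simp [L7])

/-- vectors by completing the square -/
theorem zC_d1 {Q : ℕ} {a b t : ℤ} (S : SysE Q a b t) (hQ : 91 ∣ Q) (hC : RC 13 T1_d1 1 13 (zd a b t) (J4 a b t))
    (hi : ∀ x ∈ (J4 a b t).map (fkI 7), 2 * x.2.2 * ii 7 x.2.2 % 7 = 1) :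
    ip 2197 1840 (RA 13 T1_d1 640 W_d1 Y1_d1 Y0_d1 13 (zd a b t) (J4 a b t)) (VC 7 T3_d1 640 (zd a b t) (J4 a b t)) = 0 :=
  (L7_eq ▸ good_d1).twoC (J4_ok a b t) hC (by decide) ((S.mono hQ).rel 13 1 7 2197 T1_d1 T2_d1 T3_d1 rok_d1 tab1_d1 tab2_d1 tab3_d1 (by norm_num) (by norm_num)) hi (K := 3) rfl (by norm_num [BA]) (by norm_num)

/-- direct vectors -/
theorem zB_d3 {Q : ℕ} {a b t : ℤ} (S : SysE Q a b t) (hQ : 3458 ∣ Q) (hC : RC 13 T1_d3 0 19 (zd a b t) (J4 a b t)) :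
    ip 19 1840 (red 7680 640 7040 3 (RA 13 T1_d3 7680 W_d3 Y1_d3 Y0_d3 19 (zd a b t) (J4 a b t)) (VA 8 T2_d3 640 7680 L8 (J4 a b t))) (VB 7 T3_d3 640 L7 (J4 a b t)) = 0 :=
  good_d3.threeB (J4_ok a b t) hC ((S.mono hQ).rel 13 8 7 19 T1_d3 T2_d3 T3_d3 rok_d3 tab1_d3 tab2_d3 tab3_d3 (by norm_num) (by norm_num)) (K := 3) rfl (by norm_num [BA, L8, L7]) (by simp [L7]) (by simp [L8])

/-- vectors by completing the square -/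
theorem zC_d3 {Q : ℕ} {a b t : ℤ} (S : SysE Q a b t) (hQ : 3458 ∣ Q) (hC : RC 13 T1_d3 0 19 (zd a b t) (J4 a b t))
    (hi : ∀ x ∈ (J4 a b t).map (fkI 7), 2 * x.2.2 * ii 7 x.2.2 % 7 = 1) :
    ip 19 1840 (red 7680 640 7040 3 (RA 13 T1_d3 7680 W_d3 Y1_d3 Y0_d3 19 (zd a b t) (J4 a b t)) (VA 8 T2_d3 640 7680 L8 (J4 a b t))) (VC 7 T3_d3 640 (zd a b t) (J4 a b t)) = 0 :=
  (L7_eq ▸ good_d3).threeC (J4_ok a b t) hC ((S.mono hQ).rel 13 8 7 19 T1_d3 T2_d3 T3_d3 rok_d3 tab1_d3 tab2_d3 tab3_d3 (by norm_num) (by norm_num)) hi (K := 3) rfl (by norm_num [BA, L8]) (by norm_num) (by simp [L8])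

/-- direct vectors -/
theorem zB_d4 {Q : ℕ} {a b t : ℤ} (S : SysE Q a b t) (hQ : 182 ∣ Q) (hC : RC 13 T1_d4 1 13 (zd a b t) (J4 a b t)) :
    ip 2197 1840 (red 7680 640 7040 3 (RA 13 T1_d4 7680 W_d4 Y1_d4 Y0_d4 13 (zd a b t) (J4 a b t)) (VA 8 T2_d4 640 7680 L8 (J4 a b t))) (VB 7 T3_d4 640 L7 (J4 a b t)) = 0 :=
  good_d4.threeB (J4_ok a b t) hC ((S.mono hQ).rel 13 8 7 2197 T1_d4 T2_d4 T3_d4 rok_d4 tab1_d4 tab2_d4 tab3_d4 (by norm_num) (by norm_num)) (K := 3) rfl (by norm_num [BA, L8, L7]) (by simp [L7]) (by simp [L8])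

/-- direct vectors -/
theorem zB_d5 {Q : ℕ} {a b t : ℤ} (S : SysE Q a b t) (hQ : 182 ∣ Q) (hC : RC 7 T1_d5 1 7 (zd a b t) (J4 a b t)) :
    ip 343 3280 (red 13440 1120 12320 3 (RA 7 T1_d5 13440 W_d5 Y1_d5 Y0_d5 7 (zd a b t) (J4 a b t)) (VA 8 T2_d5 1120 13440 L8 (J4 a b t))) (VB 13 T3_d5 1120 L13 (J4 a b t)) = 0 :=
  good_d5.threeB (J4_ok a b t) hC ((S.mono hQ).rel 7 8 13 343 T1_d5 T2_d5 T3_d5 rok_d5 tab1_d5 tab2_d5 tab3_d5 (by norm_num) (by norm_num)) (K := 3) rfl (by norm_num [BA, L8, L13]) (by simp [L13]) (by simp [L8])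

/-- vectors by completing the square -/
theorem zC_d5 {Q : ℕ} {a b t : ℤ} (S : SysE Q a b t) (hQ : 182 ∣ Q) (hC : RC 7 T1_d5 1 7 (zd a b t) (J4 a b t))
    (hi : ∀ x ∈ (J4 a b t).map (fkI 13), 2 * x.2.2 * ii 13 x.2.2 % 13 = 1) :
    ip 343 3280 (red 13440 1120 12320 3 (RA 7 T1_d5 13440 W_d5 Y1_d5 Y0_d5 7 (zd a b t) (J4 a b t)) (VA 8 T2_d5 1120 13440 L8 (J4 a b t))) (VC 13 T3_d5 1120 (zd a b t) (J4 a b t)) = 0 :=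
  (L13_eq ▸ good_d5).threeC (J4_ok a b t) hC ((S.mono hQ).rel 7 8 13 343 T1_d5 T2_d5 T3_d5 rok_d5 tab1_d5 tab2_d5 tab3_d5 (by norm_num) (by norm_num)) hi (K := 3) rfl (by norm_num [BA, L8]) (by norm_num) (by simp [L8])

/-- direct vectors -/
theorem zB_h1 {Q : ℕ} {a b t : ℤ} (S : SysE Q a b t) (hQ : 70 ∣ Q) (hC : RC 7 T1_h1 1 7 (zd a b t) (J4 a b t)) :
    ip 343 1360 (red 5760 480 5280 3 (RA 7 T1_h1 5760 W_h1 Y1_h1 Y0_h1 7 (zd a b t) (J4 a b t)) (VA 8 T2_h1 480 5760 L8 (J4 a b t))) (VB 5 T3_h1 480 L5 (J4 a b t)) = 0 :=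
  good_h1.threeB (J4_ok a b t) hC ((S.mono hQ).rel 7 8 5 343 T1_h1 T2_h1 T3_h1 rok_h1 tab1_h1 tab2_h1 tab3_h1 (by norm_num) (by norm_num)) (K := 3) rfl (by norm_num [BA, L8, L5]) (by simp [L5]) (by simp [L8])

/-- vectors by completing the square -/
theorem zC_h1 {Q : ℕ} {a b t : ℤ} (S : SysE Q a b t) (hQ : 70 ∣ Q) (hC : RC 7 T1_h1 1 7 (zd a b t) (J4 a b t))
    (hi : ∀ x ∈ (J4 a b t).map (fkI 5), 2 * x.2.2 * ii 5 x.2.2 % 5 = 1) :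
    ip 343 1360 (red 5760 480 5280 3 (RA 7 T1_h1 5760 W_h1 Y1_h1 Y0_h1 7 (zd a b t) (J4 a b t)) (VA 8 T2_h1 480 5760 L8 (J4 a b t))) (VC 5 T3_h1 480 (zd a b t) (J4 a b t)) = 0 :=
  (L5_eq ▸ good_h1).threeC (J4_ok a b t) hC ((S.mono hQ).rel 7 8 5 343 T1_h1 T2_h1 T3_h1 rok_h1 tab1_h1 tab2_h1 tab3_h1 (by norm_num) (by norm_num)) hi (K := 3) rfl (by norm_num [BA, L8]) (by norm_num) (by simp [L8])

end Pool.Agent.P4E
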